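import Pool.Agent.H3.MX.Wld
import Pool.Agent.H3.MX.Mov
import Pool.Agent.H3.MX.Lin
import Pool.Agent.H67.RG.FinR
import Pool.Agent.H67.MX.EvM

/-!
# FG, MIX: the theorem
-/

set_option autoImplicit false
set_option linter.unusedSectionVars false

namespace Pool.Agent.H67.MX

open Finset Pool.Agent.H93.RG Pool.Agent.H3.MX
open Pool.Agent.H3.Frg hiding ind
open Pool.Agent.H3.RG (Mr)
open Pool.Agent.H67.FG (ind Alg Fo tr Few DegOK self_mem_subs)
open Pool.Agent.H67.RG (Ev df)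

theorem degOK_mono {V F : Type} [Field F] {m T T' : ℕ} {A : Fo V} (hT : T ≤ T') (h : DegOK F m T A) :
    DegOK F m T' A := by
  intro Y 𝓐 r g h1 h2 D0 h3 h4 hK B hB
  have hTD : T * D0 ≤ T' * D0 := Nat.mul_le_mul_right _ hT
  obtain ⟨a, b, c⟩ := h Y 𝓐 r g h1 h2 D0 h3 h4 (hTD.trans hK) B hB
  exact ⟨𝓐.mono hTD a, 𝓐.mono hTD b, c⟩

/-- the defect of a formula without gates -/
theorem df_free {V Y F : Type} [Field F] {r : Y → Fm (V ⊕ Bool) → Option Bool} {g : Y → Fo V → Bool} {A : Fo V}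
    (hA : A.gates = ∅) (hg : ∀ y, g y A = (r y (tr (g y) A)).getD false) (g0 : Fo V → Bool) :
    (df g A : Y → F) = ind (fun y => r y (tr g0 A) = some false) + ind (fun y => r y (tr (g y) A) = none) := by
  funext y
  have e : tr (g y) A = tr g0 A := tr_free _ _ A hA
  have h := hg y
  rw [e] at h
  rw [Pi.add_apply, df, Pi.sub_apply, Pi.one_apply]
  unfold Pool.Agent.H67.FG.ind
  simp only [e]
  by_cases h1 : r y (tr g0 A) = some false
  · rw [h1] at h
    rw [if_pos h1, if_neg (by rw [h]; simp), if_neg (by rw [h1]; simp)]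
    ring
  · by_cases h2 : r y (tr g0 A) = none
    · rw [h2] at h
      rw [if_neg h1, if_neg (by rw [h]; simp), if_pos h2]
      ring
    · have h3 : r y (tr g0 A) = some true := by
        obtain ⟨b, hb⟩ := Option.ne_none_iff_exists'.1 h2
        cases b with
        | true => exact hb
        | false => exact absurd hb h1
      rw [h3] at h
      rw [if_neg h1, if_neg h2, if_pos (by rw [h]; simp)]
      ring

theorem mix_gates {r d k l m t N : ℕ} (hr : 2 ≤ r) (hd : 1 ≤ d) (hk : 1 ≤ k) (hm : 2 ≤ m) (ht : 1 ≤ t)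
    (hN : ((k + 3) * (r * m * t) ^ (l + 11)) ^ (2 * r ^ (2 * d)) ≤ N)
    (π : List (ℕ × Fo (Finset (Fin N)))) (hπ : IsMix k (Count r N) π)
    (hmod : ∀ x ∈ π, x.1 ≤ m ∧ ∃ p e : ℕ, p.Prime ∧ ¬ p ∣ r ∧ 1 ≤ e ∧ x.1 = p ^ e)
    (hline : ∀ x ∈ π, (∀ B ∈ x.2.subs, B.dep ≤ d) ∧ Few t l x.2) :
    2 ^ t ≤ {B | ∃ x ∈ π, B ∈ x.2.subs}.ncard := by
  by_contra hcon0
  push Not at hcon0
  have : NeZero r := ⟨by omega⟩
  -- numbers
  set w := 2 * t + 1 with hwdef
  have hw : 1 ≤ w := by omega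
  set T := (t * m) ^ l with hTdef
  have hT : 1 ≤ T := Nat.one_le_iff_ne_zero.2 (pow_ne_zero _ (by positivity))
  set Q := 1000 * r * (k + 3) * ((t * m) ^ l * (2 * t + 2) ^ 2) with hQ
  set q := r * Q + 1 with hqdef
  have hlev := H81.RG.num_explicit (d := d) (k := k) (l := l) (c := N % r) (q := q) hr hm ht (Nat.mod_lt _ (by omega))
    (by rw [hqdef, hQ])
  have hNL : lev r w (q * (q - 1) * (r - 1) + N % r) d ≤ N := hlev.trans hN
  have hq : 1000 * r * (k + 3) * (T * (w + 1) ^ 2) ≤ q := by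
    have h1 : Q ≤ r * Q := Nat.le_mul_of_pos_left _ (by omega)
    have h2 : 1000 * r * (k + 3) * (T * (w + 1) ^ 2) = Q := by rw [hQ, hTdef, hwdef]
    omega
  have hq1 : q % r = 1 := by
    rw [hqdef, Nat.mul_add_mod]
    exact Nat.mod_eq_of_lt (by omega)
  have hr1 : 1 ≤ r := by omega
  set X := T * (w + 1) ^ 2 with hXdef
  have hX : 1 ≤ X := Nat.one_le_iff_ne_zero.2 (by positivity)
  have hX1 : (w + 1) ^ 2 ≤ X := Nat.le_mul_of_pos_left _ hT
  have hq4 : 4000 * (r * X) ≤ q := by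
    refine le_trans ?_ hq
    have : 4 * (r * X) ≤ (k + 3) * (r * X) := Nat.mul_le_mul_right _ (by omega)
    calc 4000 * (r * X) = 1000 * (4 * (r * X)) := by ring
      _ ≤ 1000 * ((k + 3) * (r * X)) := Nat.mul_le_mul_left _ this
      _ = 1000 * r * (k + 3) * X := by ring
  have hrX : r ≤ r * X := Nat.le_mul_of_pos_right _ hX
  have hq3 : 4000 ≤ q := by omega
  have : NeZero q := ⟨by omega⟩
  set K := q ^ 2 / 10 with hKdef
  have hK10 : 10 * K ≤ q ^ 2 := Nat.mul_div_le _ _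
  have hK11 : q ^ 2 < 10 * K + 10 := by
    have := Nat.lt_mul_div_succ (q ^ 2) (show 0 < 10 by norm_num)
    omega
  have hq2 : 4000 * q ≤ q ^ 2 := by nlinarith
  have hcard := card_Pt r q (N % r)
  have hdvd : r ∣ q - 1 := by
    have h1 := Nat.div_add_mod q r
    rw [hq1] at h1
    exact ⟨q / r, by omega⟩
  have hmodN : N % r = Fintype.card (Pt r q (N % r)) % r := by
    rw [hcard]
    obtain ⟨z, hz⟩ := hdvd
    rw [hz, show q * (r * z) * (r - 1) = r * (q * z * (r - 1)) by ring, Nat.mul_add_mod, Nat.mod_mod]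
  have hcard2 : 100 * r ^ 2 * (w + 1) ^ 2 ≤ Fintype.card (Pt r q (N % r)) := by
    rw [hcard]
    have h1 : r * (w + 1) ^ 2 ≤ r * X := Nat.mul_le_mul_left _ hX1
    have h2 : 100 * r ^ 2 * (w + 1) ^ 2 ≤ q * r := by
      calc 100 * r ^ 2 * (w + 1) ^ 2 = 100 * (r * (w + 1) ^ 2) * r := by ring
        _ ≤ q * r := Nat.mul_le_mul_right _ (by omega)
    have h3 : q * r ≤ q * (q - 1) * (r - 1) := by
      have h4 : r ≤ q - 1 := by omega
      calc q * r ≤ q * (q - 1) := Nat.mul_le_mul_left _ h4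
        _ ≤ q * (q - 1) * (r - 1) := Nat.le_mul_of_pos_right _ (by omega)
    omega
  -- the list
  have hlineS : ∀ A ∈ π.map Prod.snd, ∀ B ∈ A.subs, B.dep ≤ d ∧ B.outer.ncard ≤ t := by
    intro A hA B hB
    obtain ⟨x, hx, rfl⟩ := List.mem_map.1 hA
    exact ⟨(hline x hx).1 B hB, H93.FG2.few_outer (hline x hx).2 B hB⟩
  obtain ⟨S, hS, hSt, hSc, hSd, hSl⟩ := H93.FG2.sub_list_card (π.map Prod.snd) t d hlineS
  have hall : H93.FG2.allSubs (π.map Prod.snd) = {B | ∃ x ∈ π, B ∈ x.2.subs} := by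
    ext B
    constructor
    · rintro ⟨A, hA, hB⟩
      obtain ⟨x, hx, rfl⟩ := List.mem_map.1 hA
      exact ⟨x, hx, hB⟩
    · rintro ⟨x, hx, hB⟩
      exact ⟨x.2, List.mem_map.2 ⟨x, hx, rfl⟩, hB⟩
  rw [hall] at hSl
  have hSw : S.length ≤ 2 ^ w := by
    refine hSl.trans ?_
    have h1 : 2 ^ (2 * t + 1) = 2 ^ t * 2 ^ t * 2 := by
      rw [pow_succ, two_mul, pow_add]
    have h2 : 2 ≤ 2 ^ t := by
      calc 2 = 2 ^ 1 := rfl
        _ ≤ 2 ^ t := Nat.pow_le_pow_right (by norm_num) ht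
    have h3 : 2 ^ t * {B | ∃ x ∈ π, B ∈ x.2.subs}.ncard + 2 ^ t ≤ 2 ^ t * 2 ^ t := by
      calc 2 ^ t * {B | ∃ x ∈ π, B ∈ x.2.subs}.ncard + 2 ^ t =
            2 ^ t * ({B | ∃ x ∈ π, B ∈ x.2.subs}.ncard + 1) := by ring
        _ ≤ 2 ^ t * 2 ^ t := Nat.mul_le_mul_left _ hcon0
    rw [hwdef]
    omega
  obtain ⟨val, hval, hcoh, hv1, hv2, hv3⟩ := tower hr hd hw hcard2 hmodN (by rw [hcard]; exact hNL) S hS hSd hSw
  -- degrees
  set D0 := (w + 1) * (r * w) * (q - 1) with hD0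
  have hD0le : D0 ≤ r * (w + 1) ^ 2 * q := by
    rw [hD0]
    calc (w + 1) * (r * w) * (q - 1) ≤ (w + 1) * (r * (w + 1)) * q := by
          apply Nat.mul_le_mul
          · apply Nat.mul_le_mul_left
            exact Nat.mul_le_mul_left _ (by omega)
          · omega
      _ = r * (w + 1) ^ 2 * q := by ring
  have hD1le : T * D0 ≤ r * X * q := by
    calc T * D0 ≤ T * (r * (w + 1) ^ 2 * q) := Nat.mul_le_mul_left _ hD0le
      _ = r * X * q := by rw [hXdef]; ring
  have hKD : (k + 6) * (T * D0) ≤ K := by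
    have h1 : (k + 6) * (T * D0) ≤ (2 * (k + 3)) * (r * X * q) :=
      Nat.mul_le_mul (by omega) hD1le
    have h3 : 500 * ((2 * (k + 3)) * (r * X * q)) ≤ q ^ 2 := by
      calc 500 * ((2 * (k + 3)) * (r * X * q))
          = (1000 * r * (k + 3) * X) * q := by ring
        _ ≤ q * q := Nat.mul_le_mul_right _ hq
        _ = q ^ 2 := by ring
    omega
  have hD03 : 3 * D0 ≤ K := by
    have h1 : D0 ≤ T * D0 := Nat.le_mul_of_pos_left _ hT
    have h2 : 6 * (T * D0) ≤ (k + 6) * (T * D0) := Nat.mul_le_mul_right _ (by omega)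
    omega
  -- the worlds
  have h1 : ∀ (p : ℕ) (hp : Fact p.Prime), ¬ p ∣ r →
      ∃ 𝓦 : MW r (ZMod p) (Ed q → ZMod r) (Pt r q (N % r)), WW p K (N % r) 𝓦 := fun p hp hpr =>
    world_mx p hr hpr K (N % r) (by omega) hq1 (by omega) (by omega)
  choose W hW using h1
  set L : Set (Fo (Finset (Fin N))) := {A | ∃ x ∈ π, x.2 = A} with hL
  set rr : (Ed q → ZMod r) → Fm (Finset (Fin N) ⊕ Bool) → Option Bool :=
    fun y C => run r w (val C) (Mr y) (w + 1) ∅ with hrr
  have h2 : ∀ (p : ℕ) (hp : Fact p.Prime) (hpr : ¬ p ∣ r) (e : ℕ), 1 ≤ e → p ^ e ≤ m →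
      ∃ g : (Ed q → ZMod r) → Fo (Finset (Fin N)) → Bool,
        Ev (p ^ e) k (W p hp hpr).toAlg (T * D0) rr g (Count r N) L := by
    intro p hp hpr e he hpm
    have h3 := ev_of (m := p ^ e) (T := T) (k := k) hr hw hT (W p hp hpr) hcard2 (by
      rw [(hW p hp hpr).cost, (hW p hp hpr).bd]
      exact hKD) S hS val hval hcoh hv1 hv2 hv3 L (by
      rintro A ⟨x, hx, rfl⟩ B hB G
      exact hSt x.2 (List.mem_map.2 ⟨x, hx, rfl⟩) B hB G) (by
      rintro A ⟨x, hx, rfl⟩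
      have hpe : 2 ≤ p ^ e := by
        calc 2 ≤ p := hp.out.two_le
          _ = p ^ 1 := (pow_one p).symm
          _ ≤ p ^ e := Nat.pow_le_pow_right hp.out.pos he
      exact degOK_mono (Nat.pow_le_pow_left (Nat.mul_le_mul_left _ hpm) _)
        (H93.FG2.few_deg ht hpe (hline x hx).2))
    rw [(hW p hp hpr).cost, (hW p hp hpr).part] at h3
    exact h3
  choose g hg using h2
  -- transfer
  have htrans : ∀ (A : Fo (Finset (Fin N))), A ∈ L → A.gates = ∅ → ∀ (p : ℕ) (hp : Fact p.Prime) (hpr : ¬ p ∣ r) (e : ℕ) (he : 1 ≤ e) (hpm : p ^ e ≤ m)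
      (p' : ℕ) (hp' : Fact p'.Prime) (hpr' : ¬ p' ∣ r) (e' : ℕ) (he' : 1 ≤ e') (hpm' : p' ^ e' ≤ m),
      df (g p hp hpr e he hpm) A ∈ (W p hp hpr).Z → df (g p' hp' hpr' e' he' hpm') A ∈ (W p' hp' hpr').Z := by
    intro A hA hfree p hp hpr e he hpm p' hp' hpr' e' he' hpm' h
    have E := hg p hp hpr e he hpm
    have E' := hg p' hp' hpr' e' he' hpm'
    rw [df_free hfree (fun y => E.val y A) (fun _ => true)] at h
    rw [df_free hfree (fun y => E'.val y A) (fun _ => true)]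
    have s1 := E.sz A hA A (self_mem_subs A)
    have s2 := E'.sz A hA A (self_mem_subs A)
    have h3 : ind (fun y => rr y (tr (fun _ => true) A) = some false) ∈ (W p hp hpr).Z := by
      have := (W p hp hpr).Z.sub_mem h s1
      rwa [add_sub_cancel_right] at this
    have h4 := run_move hr1 (hW p hp hpr) (hW p' hp' hpr') w (w + 1) (val (tr (fun _ => true) A)) hD03 (some false) h3
    exact (W p' hp' hpr').Z.add_mem h4 s2
  -- the lines
  have hlines : ∀ (i : ℕ) (hi : i < π.length), ∀ (p : ℕ) (hp : Fact p.Prime) (hpr : ¬ p ∣ r) (e : ℕ) (he : 1 ≤ e) (hpm : p ^ e ≤ m), ((π[i]).1 = p ^ e ∨ (π[i]).2.gates = ∅) →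
      df (g p hp hpr e he hpm) (π[i]).2 ∈ (W p hp hpr).Z := by
    intro i
    induction i using Nat.strong_induction_on with
    | _ i ih =>
      intro hi
      have hmem : π[i] ∈ π := List.getElem_mem hi
      have hAL : (π[i]).2 ∈ L := ⟨_, hmem, rfl⟩
      have own : ∀ (p : ℕ) (hp : Fact p.Prime) (hpr : ¬ p ∣ r) (e : ℕ) (he : 1 ≤ e) (hpm : p ^ e ≤ m), (π[i]).1 = p ^ e → df (g p hp hpr e he hpm) (π[i]).2 ∈ (W p hp hpr).Z := by
        intro p hp hpr e he hpm hpe
        have E := hg p hp hpr e he hpm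
        rcases hπ.line i hi with h | ⟨ψ, σ, h1, h2, h3⟩ | ⟨j, l, hj, hl, h, hmj, hml⟩
        · exact hyp_step E hAL h
        · rw [h3] at hAL ⊢
          refine ax_step E ψ σ h1 ?_ hAL
          rw [← hpe]
          exact h2
        · have hjL : (π[j]).2 ∈ L := ⟨_, List.getElem_mem (hj.trans hi), rfl⟩
          have hlL : (π[l]).2 ∈ L := ⟨_, List.getElem_mem (hl.trans hi), rfl⟩
          have dj := ih j hj (hj.trans hi) p hp hpr e he hpm (by
            rcases hmj with h1 | h1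
            · exact Or.inl (h1.trans hpe)
            · exact Or.inr h1)
          have dl := ih l hl (hl.trans hi) p hp hpr e he hpm (by
            rcases hml with h1 | h1
            · exact Or.inl (h1.trans hpe)
            · exact Or.inr h1)
          rw [h] at hlL dl
          exact mp_step E hjL hAL hlL dj dl
      intro p hp hpr e he hpm hor
      rcases hor with h | h
      · exact own p hp hpr e he hpm h
      · obtain ⟨hle, p0, e0, hp0, hpr0, he0, hx0⟩ := hmod _ hmem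
        have hp0' : Fact p0.Prime := ⟨hp0⟩
        exact htrans _ hAL h p0 hp0' hpr0 e0 he0 (by rw [← hx0]; exact hle) p hp hpr e he hpm
          (own p0 hp0' hpr0 e0 he0 (by rw [← hx0]; exact hle) hx0)
  -- the end
  obtain ⟨hne, A, hA⟩ := hπ.last
  have hlen : π.length - 1 < π.length := by
    have := List.length_pos_iff.2 hne
    omega
  have hlast : π[π.length - 1] = π.getLast hne := by rw [List.getLast_eq_getElem]
  have hmem : π.getLast hne ∈ π := List.getLast_mem hne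
  obtain ⟨hle, p0, e0, hp0, hpr0, he0, hx0⟩ := hmod _ hmem
  have hp0' : Fact p0.Prime := ⟨hp0⟩
  have hfin := hlines _ hlen p0 hp0' hpr0 e0 he0 (by rw [← hx0]; exact hle) (Or.inl (by rw [hlast]; exact hx0))
  rw [hlast, hA] at hfin
  have hAL : Fo.neg (.imp A A) ∈ L := ⟨_, hmem, hA⟩
  exact last_step (hg p0 hp0' hpr0 e0 he0 _) hAL hfin

end Pool.Agent.H67.MX
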